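import Pool.Agent.Zk51.SQ.Main

/-!
# Closure properties, and completely decomposable Jacobians
-/

set_option autoImplicit false

open CategoryTheory

namespace Pool.Agent.Zk51.SQ

open Pool.Agent.Zk51.SP Pool.Agent.Zk51.SP.Curves

universe v u

variable {𝒜 : Type u} [Category.{v} 𝒜] [Preadditive 𝒜] {D : Curves 𝒜}

/-- Isogeny factors of isogeny factors. -/
theorem IsFactor.factor {b m n : ℕ} {A B : 𝒜} (hB : IsFactor D b m B) (u : A ⟶ B) (v : B ⟶ A)
    (hn : 1 ≤ n) (huv : u ≫ v = n • 𝟙 A) : IsFactor D b m A := by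
  obtain ⟨s, k, Bj, x, y, hs, hk, hb, hxy⟩ := hB
  refine ⟨s, n * k, Bj, fun j => u ≫ x j, fun j => y j ≫ v, hs, Nat.mul_pos hn hk, hb, ?_⟩
  have h6 : ∑ j, (u ≫ x j) ≫ y j ≫ v = u ≫ (∑ j, x j ≫ y j) ≫ v := by
    rw [Preadditive.sum_comp, Preadditive.comp_sum]
    exact Finset.sum_congr rfl fun j _ => by simp only [Category.assoc]
  rw [h6, hxy, Preadditive.nsmul_comp, Category.id_comp, Preadditive.comp_nsmul, huv, ← mul_smul,
    mul_comm]

/-- Images. -/
theorem IsFactor.image (h : D.IsArakelov) {b m : ℕ} {X' X : D.V} (f : D.Mor X' X)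
    (hA : IsFactor D b m (D.jac X')) : IsFactor D b m (D.jac X) :=
  hA.factor (D.pull f) (D.push f) (h.geometry.deg_pos f) (h.geometry.pull_push f)

/-- A sum of isogeny factors of products of `m` basic abelian varieties. -/
theorem isFactor_of_sum (h : D.IsArakelov) {b m : ℕ} {A : 𝒜} {ι : Type} [Fintype ι] (C : ι → 𝒜)
    (u : ∀ j, A ⟶ C j) (v : ∀ j, C j ⟶ A) {n : ℕ} (hn : 1 ≤ n)
    (huv : ∑ j, u j ≫ v j = n • 𝟙 A) (hC : ∀ j, IsFactor D b m (C j)) {M : ℕ}
    (hM : Fintype.card ι * m ≤ M) (hmM : m ≤ M) : IsFactor D b M A := by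
  classical
  choose s k B x y hs hk hb hxy using hC
  let K : ℕ := ∏ j, k j
  have hK : 1 ≤ K := Nat.one_le_iff_ne_zero.2
    (Finset.prod_ne_zero_iff.2 fun j _ => Nat.one_le_iff_ne_zero.1 (hk j))
  have hdvd : ∀ j, K / k j * k j = K := fun j =>
    Nat.div_mul_cancel (Finset.dvd_prod_of_mem _ (Finset.mem_univ j))
  let e := Fintype.equivFin (Σ j, Fin (s j))
  have hcard : Fintype.card (Σ j, Fin (s j)) ≤ M := by
    rw [Fintype.card_sigma]
    simp only [Fintype.card_fin]
    calc ∑ j, s j ≤ ∑ _j : ι, m := Finset.sum_le_sum fun j _ => hs j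
      _ = Fintype.card ι * m := by simp
      _ ≤ M := hM
  refine ⟨Fintype.card (Σ j, Fin (s j)), K * n, fun q => B (e.symm q).1 (e.symm q).2,
    fun q => u (e.symm q).1 ≫ x (e.symm q).1 (e.symm q).2,
    fun q => (K / k (e.symm q).1) • (y (e.symm q).1 (e.symm q).2 ≫ v (e.symm q).1),
    hcard, Nat.mul_pos hK hn, fun q => h.shafarevich.mono _ _ _ _ hmM (hb _ _), ?_⟩
  rw [Equiv.sum_comp e.symm (fun q : Σ j, Fin (s j) =>
    (u q.1 ≫ x q.1 q.2) ≫ ((K / k q.1) • (y q.1 q.2 ≫ v q.1))), Fintype.sum_sigma]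
  have h1 : ∀ j, ∑ l, (u j ≫ x j l) ≫ ((K / k j) • (y j l ≫ v j)) = K • (u j ≫ v j) := by
    intro j
    have h2 : ∑ l, (u j ≫ x j l) ≫ ((K / k j) • (y j l ≫ v j)) =
        (K / k j) • (u j ≫ (∑ l, x j l ≫ y j l) ≫ v j) := by
      rw [Preadditive.sum_comp, Preadditive.comp_sum, Finset.smul_sum]
      refine Finset.sum_congr rfl fun l _ => ?_
      rw [Preadditive.comp_nsmul]
      simp only [Category.assoc]
    rw [h2, hxy, Preadditive.nsmul_comp, Category.id_comp, Preadditive.comp_nsmul, ← mul_smul,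
      hdvd]
  rw [Finset.sum_congr rfl fun j _ => h1 j, ← Finset.smul_sum, huv, ← mul_smul]

open Classical in
/-- The relation between the quotients. -/
theorem relation_of_generated (h : D.IsArakelov) {X : D.V} {G : Type} [Group G] [Fintype G]
    (α : D.Act X G) (R : Subgroup G → Prop) (hg : GeneratedBy D α R) :
    ∃ (N : ℕ) (q : D.jac X ⟶ D.jac X), 1 ≤ N ∧ N • 𝟙 (D.jac X) =
      q ≫ ∑ H : {H : Subgroup G // R H}, D.push (D.proj α H.1) ≫ D.pull (D.proj α H.1) := by
  set s : Finset (Subgroup G) := Finset.univ.filter fun H => R H with hs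
  have hsum : ∑ H : {H : Subgroup G // R H}, D.push (D.proj α H.1) ≫ D.pull (D.proj α H.1) =
      ∑ H ∈ s, D.push (D.proj α H) ≫ D.pull (D.proj α H) := by
    rw [hs, ← Finset.sum_subtype (Finset.univ.filter fun H => R H) (by simp)
      (fun H => D.push (D.proj α H) ≫ D.pull (D.proj α H))]
  rw [hsum]
  rcases s.eq_empty_or_nonempty with h0 | h0
  · have h1 : 𝟙 (D.jac X) = 0 := by
      refine hg _ _ fun H hH => ?_
      have : H ∈ s := Finset.mem_filter.2 ⟨Finset.mem_univ _, hH⟩
      rw [h0] at this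
      exact absurd this (Finset.notMem_empty _)
    refine ⟨1, 0, le_rfl, ?_⟩
    rw [h1, Limits.zero_comp, smul_zero]
  · obtain ⟨N, Q, h1, _, h3⟩ := ring_relation s h0
    set ν : MonoidAlgebra ℤ G := ∑ H ∈ s, nrm H with hν
    set P : Polynomial ℤ := Polynomial.C (N : ℤ) - Polynomial.X * Q with hP
    have h4 : (ringAct α (Polynomial.aeval ν P) : D.jac X ⟶ D.jac X) = 0 := by
      refine hg _ _ fun H hH => ?_
      have h5 := congrArg (ringAct α) (h3 H (Finset.mem_filter.2 ⟨Finset.mem_univ _, hH⟩))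
      rw [map_mul, map_zero] at h5
      have h6 : D.norm α H ≫ (ringAct α (Polynomial.aeval ν P) : D.jac X ⟶ D.jac X) = 0 := by
        rw [← ringAct_nrm]
        exact h5
      rw [← h.geometry.push_pull, Category.assoc] at h6
      refine h.height.torsion _ _ _ _ (h.geometry.deg_pos (D.proj α H)) ?_
      have h7 : (D.pull (D.proj α H) ≫ D.push (D.proj α H)) ≫ D.pull (D.proj α H) ≫
          (ringAct α (Polynomial.aeval ν P) : D.jac X ⟶ D.jac X) = 0 := by
        rw [Category.assoc, h6, Limits.comp_zero]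
      rw [h.geometry.pull_push, Preadditive.nsmul_comp, Category.id_comp] at h7
      exact h7
    refine ⟨N, (ringAct α (Polynomial.aeval ν Q) : D.jac X ⟶ D.jac X), h1, ?_⟩
    have h6 : ringAct α (Polynomial.aeval ν P) =
        (N : End (D.jac X)) - ringAct α ν * ringAct α (Polynomial.aeval ν Q) := by
      rw [hP, map_sub, map_mul, Polynomial.aeval_X, Polynomial.aeval_C, map_sub, map_mul]
      simp
    have h7 : (N : End (D.jac X)) = ringAct α ν * ringAct α (Polynomial.aeval ν Q) := by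
      have h8 : ringAct α (Polynomial.aeval ν P) = 0 := h4
      rw [h6] at h8
      exact sub_eq_zero.1 h8
    have h8 : (ringAct α ν : D.jac X ⟶ D.jac X) =
        ∑ H ∈ s, D.push (D.proj α H) ≫ D.pull (D.proj α H) := by
      rw [hν, map_sum]
      refine Finset.sum_congr rfl fun H _ => ?_
      rw [h.geometry.push_pull]
      exact ringAct_nrm α H
    have h9 : (N • 𝟙 (D.jac X) : D.jac X ⟶ D.jac X) = (N : End (D.jac X)) :=
      nsmul_one (A := End (D.jac X)) N
    rw [h9, h7, ← h8]
    rfl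

open Classical in
/-- Curves with a group action whose Jacobian is generated by quotients in the class. -/
theorem isFactor_of_generated (h : D.IsArakelov) {b m : ℕ} {X : D.V} (hX : 2 ≤ D.genus X)
    {G : Type} [Group G] [Fintype G] (α : D.Act X G)
    (hg : GeneratedBy D α fun H => IsFactor D b m (D.jac (D.quo α H))) :
    IsFactor D b ((2 ^ (84 * D.genus X)) * m) (D.jac X) := by
  obtain ⟨N, q, hN, hq⟩ := relation_of_generated h α _ hg
  have hd : Fintype.card G ≤ 84 * D.genus X :=
    (h.geometry.card_le α hX).trans (Nat.mul_le_mul_left _ (Nat.sub_le _ _))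
  have hcard : Fintype.card {H : Subgroup G // IsFactor D b m (D.jac (D.quo α H))} ≤
      2 ^ (84 * D.genus X) := by
    calc Fintype.card {H : Subgroup G // IsFactor D b m (D.jac (D.quo α H))}
        ≤ Fintype.card (Subgroup G) := Fintype.card_subtype_le _
      _ ≤ Fintype.card (Set G) := Fintype.card_le_of_injective (fun H => (H : Set G))
          SetLike.coe_injective
      _ = 2 ^ Fintype.card G := Fintype.card_set
      _ ≤ 2 ^ (84 * D.genus X) := Nat.pow_le_pow_right (by norm_num) hd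
  refine isFactor_of_sum h (fun H : {H : Subgroup G // IsFactor D b m (D.jac (D.quo α H))} =>
    D.jac (D.quo α H.1)) (fun H => q ≫ D.push (D.proj α H.1)) (fun H => D.pull (D.proj α H.1))
    hN ?_ (fun H => H.2) (Nat.mul_le_mul_right _ hcard)
    (Nat.le_mul_of_pos_left m (by positivity))
  rw [hq, Preadditive.comp_sum]
  exact Finset.sum_congr rfl fun H _ => Category.assoc _ _ _

variable {Def : ℕ → ℕ → 𝒜 → Prop}

/-- Completely decomposable Jacobians. -/
theorem isFactor_of_decomposable (h : IsEffective D Def) {ε : ℕ → ℕ}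
    (hε : ∀ (b : ℕ) (X : D.V) (E : 𝒜) (u : D.jac X ⟶ E) (v : E ⟶ D.jac X) (n : ℕ),
      D.Over b X → D.dim E = 1 → 1 ≤ n → v ≫ u = n • 𝟙 E →
        ∃ (E' : 𝒜) (k : ℕ), D.Basic b (ε (D.genus X)) E' ∧ IsogenousBy E E' k)
    {b : ℕ} {X : D.V} (hO : D.Over b X) (hX : IsCompletelyDecomposable D (D.jac X)) :
    IsFactor D b ((D.genus X + 1) * (ε (D.genus X) + 1)) (D.jac X) := by
  obtain ⟨s, n, E, u, v, hn, hE, h1, h2, h3⟩ := hX
  have hH := h.arakelov.height
  -- the number of the factors is the genus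
  obtain ⟨P, ι, π, hP, _, hd⟩ := hH.product (Fin s) E
  have hs : s = D.genus X := by
    have e1 : (∑ j, u j ≫ ι j) ≫ (∑ k, π k ≫ v k) = n • 𝟙 (D.jac X) := by
      rw [← h3, Preadditive.sum_comp]
      refine Finset.sum_congr rfl fun j _ => ?_
      rw [Preadditive.comp_sum, Finset.sum_eq_single j]
      · rw [Category.assoc, ← Category.assoc (ι j), hP.one, Category.id_comp]
      · intro k _ hk
        rw [Category.assoc, ← Category.assoc (ι j), hP.zero j k (Ne.symm hk), Limits.zero_comp,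
          Limits.comp_zero]
      · intro hj
        exact absurd (Finset.mem_univ j) hj
    have e2 : (∑ k, π k ≫ v k) ≫ (∑ j, u j ≫ ι j) = n • 𝟙 P := by
      rw [← hP.total, Preadditive.sum_comp, Finset.smul_sum]
      refine Finset.sum_congr rfl fun k _ => ?_
      rw [Preadditive.comp_sum, Finset.sum_eq_single k]
      · rw [Category.assoc, ← Category.assoc (v k), h1, Preadditive.nsmul_comp, Category.id_comp,
          Preadditive.comp_nsmul]
      · intro j _ hj
        rw [Category.assoc, ← Category.assoc (v k), h2 k j (Ne.symm hj), Limits.zero_comp,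
          Limits.comp_zero]
      · intro hj
        exact absurd (Finset.mem_univ k) hj
    have e3 := (hH.isogeny _ _ _ _ n hn e1 e2).1
    rw [h.defn.dim_jac, hd] at e3
    simp only [hE, Finset.sum_const, Finset.card_univ, Fintype.card_fin, smul_eq_mul,
      mul_one] at e3
    exact e3.symm
  have h4 : ∀ j, IsFactor D b (ε (D.genus X) + 1) (E j) := by
    intro j
    obtain ⟨E', k, hE', f, g, hk, hfg, _⟩ := hε b X (E j) (u j) (v j) n hO (hE j) hn (h1 j)
    refine ⟨1, k, fun _ => E', fun _ => f, fun _ => g, by omega, hk,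
      fun _ => h.arakelov.shafarevich.mono _ _ _ _ (Nat.le_succ _) hE', ?_⟩
    simpa using hfg
  refine isFactor_of_sum h.arakelov E u v hn h3 h4 ?_
    (Nat.le_mul_of_pos_left _ (Nat.succ_pos _))
  rw [Fintype.card_fin, hs]
  exact Nat.mul_le_mul_right _ (Nat.le_succ _)

/-- Effective small points on curves with completely decomposable Jacobians. -/
theorem main_decomposable (h : IsEffective D Def) :
    ∃ c : ℕ × ℕ → ℕ, Computable c ∧ ∀ (b : ℕ) (X : D.V), D.Over b X → 2 ≤ D.genus X →
      IsCompletelyDecomposable D (D.jac X) → D.HasSmallPoints X (c (b, D.genus X)) := by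
  obtain ⟨c, hc, hcs⟩ := main h
  obtain ⟨ε, hεc, hε⟩ := h.elliptic
  have hmul : Computable₂ fun a b : ℕ => a * b := (Primrec.nat_mul).to_comp
  have hsucc : Computable fun a : ℕ => a + 1 := Computable.succ
  refine ⟨fun x => c (x.1, (x.2 + 1) * (ε x.2 + 1)), ?_, fun b X hO hX hd =>
    hcs b _ X hO hX (isFactor_of_decomposable h hε hO hd)⟩
  exact hc.comp (Computable.fst.pair (hmul.comp (hsucc.comp Computable.snd)
    (hsucc.comp (hεc.comp Computable.snd))))

end Pool.Agent.Zk51.SQ
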