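import Pool.Agent.Zk51.SP.Defs

/-!
# Curves whose Jacobians are isogenous to products of known abelian varieties: definitions
-/

set_option autoImplicit false

open CategoryTheory

namespace Pool.Agent.Zk51.SQ

open Pool.Agent.Zk51.SP

universe v u

variable {𝒜 : Type u} [Category.{v} 𝒜] [Preadditive 𝒜]

/-- The abelian varieties `A` and `B` are isogenous (over the algebraic closure), by isogenies whose
compositions are the multiplications by `n`. -/
def IsogenousBy (A B : 𝒜) (n : ℕ) : Prop :=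
  ∃ (f : A ⟶ B) (g : B ⟶ A), 1 ≤ n ∧ f ≫ g = n • 𝟙 A ∧ g ≫ f = n • 𝟙 B

variable (D : Curves 𝒜)

/-- Facts on fields of definition. `Def b m A` says that the abelian variety `A` is defined over an
extension of `K` of degree at most `m`, where `b` is the code of `(K, S)`: Jacobians of curves over
`K`, the basic abelian varieties, products, and images of endomorphisms (all homomorphisms between
abelian varieties over `L` are defined over an extension of `L` whose degree is bounded effectively in
terms of the dimensions). -/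
structure IsDef (Def : ℕ → ℕ → 𝒜 → Prop) : Prop where
  mono : ∀ (b m n : ℕ) (A : 𝒜), m ≤ n → Def b m A → Def b n A
  jac : ∀ (b : ℕ) (X : D.V), D.Over b X → Def b 1 (D.jac X)
  dim_jac : ∀ X : D.V, D.dim (D.jac X) = D.genus X
  basic : ∀ (b m : ℕ) (A : 𝒜), D.Basic b m A → Def b m A
  product : ∀ (b m : ℕ) (ι : Type) [Fintype ι] (B : ι → 𝒜) (P : 𝒜) (i : ∀ j, B j ⟶ P)
    (p : ∀ j, P ⟶ B j), IsProduct B P i p → (∀ j, Def b m (B j)) →
      Def b (m ^ Fintype.card ι) P
  image : ∃ δ : ℕ → ℕ, Computable δ ∧ ∀ (b m : ℕ) (B : 𝒜) (w : B ⟶ B) (n : ℕ), Def b m B →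
    D.dim B ≤ m → 1 ≤ n → w ≫ w = n • w →
      ∃ (A : 𝒜) (p : B ⟶ A) (i : A ⟶ B), p ≫ i = w ∧ i ≫ p = n • 𝟙 A ∧ Def b (δ m) A

/-- The effective isogeny theorem (Masser, Wüstholz): if `P` and `Q` are isogenous, of dimension at
most `m`, and defined over extensions of `K` of degree at most `m`, and the Faltings height of `P`
is at most `H`, then there is an isogeny of bounded degree, the bound being a computable function of
`K`, `m` and `H`. -/
def HasIsogenyTheorem (Def : ℕ → ℕ → 𝒜 → Prop) : Prop :=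
  ∃ κ : ℕ × ℕ × ℕ → ℕ, Computable κ ∧ ∀ (b m H : ℕ) (P Q : 𝒜), Def b m P → Def b m Q →
    D.dim P ≤ m → D.hF P ≤ H → (∃ n, IsogenousBy Q P n) →
      ∃ n, n ≤ κ (b, m, H) ∧ IsogenousBy Q P n

/-- Elliptic curves which are factors of the Jacobian of a curve `X` over `K` with semi-stable
reduction and good reduction outside `S`: such a factor is isogenous to an elliptic curve over an
extension of `K` of bounded degree, unramified outside `S`, with good reduction outside `S`. -/
def HasEllipticFactors : Prop :=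
  ∃ ε : ℕ → ℕ, Computable ε ∧ ∀ (b : ℕ) (X : D.V) (E : 𝒜) (u : D.jac X ⟶ E) (v : E ⟶ D.jac X)
    (n : ℕ), D.Over b X → D.dim E = 1 → 1 ≤ n → v ≫ u = n • 𝟙 E →
      ∃ (E' : 𝒜) (k : ℕ), D.Basic b (ε (D.genus X)) E' ∧ IsogenousBy E E' k

/-- All facts which are used. -/
structure IsEffective (Def : ℕ → ℕ → 𝒜 → Prop) : Prop where
  arakelov : D.IsArakelov
  defn : IsDef D Def
  isogeny : HasIsogenyTheorem D Def
  elliptic : HasEllipticFactors D

/-- `A` is, up to isogeny, a direct factor of a product of at most `m` basic abelian varieties: some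
multiplication by `n ≥ 1` on `A` factors through the product. -/
def IsFactor (b m : ℕ) (A : 𝒜) : Prop :=
  ∃ (s n : ℕ) (B : Fin s → 𝒜) (u : ∀ j, A ⟶ B j) (v : ∀ j, B j ⟶ A), s ≤ m ∧ 1 ≤ n ∧
    (∀ j, D.Basic b m (B j)) ∧ ∑ j, u j ≫ v j = n • 𝟙 A

/-- `A` is isogenous (over the algebraic closure) to a product of elliptic curves `E j`, the isogenies
being given by `u` and `v`. -/
def IsCompletelyDecomposable (A : 𝒜) : Prop :=
  ∃ (s n : ℕ) (E : Fin s → 𝒜) (u : ∀ j, A ⟶ E j) (v : ∀ j, E j ⟶ A), 1 ≤ n ∧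
    (∀ j, D.dim (E j) = 1) ∧ (∀ j, v j ≫ u j = n • 𝟙 (E j)) ∧
    (∀ j k, j ≠ k → v j ≫ u k = 0) ∧ ∑ j, u j ≫ v j = n • 𝟙 A

/-- The Jacobian of `X` is generated by the images of the Jacobians of the quotients `X / H` for the
subgroups `H` with the property `R`: a homomorphism which is zero on all of them is zero. -/
def GeneratedBy {X : D.V} {G : Type} [Group G] (α : D.Act X G) (R : Subgroup G → Prop) : Prop :=
  ∀ (A : 𝒜) (f : D.jac X ⟶ A), (∀ H, R H → D.pull (D.proj α H) ≫ f = 0) → f = 0

end Pool.Agent.Zk51.SQ
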