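import Pool.Agent.Zk51.SQ.Defs
import Pool.Agent.Zk51.SP.Final

/-!
# Curves whose Jacobians are isogenous to products of known abelian varieties: proofs
-/

set_option autoImplicit false

open CategoryTheory

namespace Pool.Agent.Zk51.SQ

open Pool.Agent.Zk51.SP

universe v u

variable {𝒜 : Type u} [Category.{v} 𝒜] [Preadditive 𝒜] {D : Curves 𝒜}

/-- The isogeny between a product of `A` with the complement and `B`. -/
theorem isogeny_of_split (h : D.IsHeight) {A B A' : 𝒜} {u : A ⟶ B} {v : B ⟶ A} {n : ℕ}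
    (hn : 1 ≤ n) (huv : u ≫ v = n • 𝟙 A) {p : B ⟶ A'} {i : A' ⟶ B}
    (hpi : p ≫ i = n • 𝟙 B - v ≫ u) (hip : i ≫ p = n • 𝟙 A') {P : 𝒜}
    {ι : ∀ b : Bool, cond b A A' ⟶ P} {π : ∀ b : Bool, P ⟶ cond b A A'}
    (hP : IsProduct (fun b => cond b A A') P ι π) : IsogenousBy P B n := by
  have hup : u ≫ p = 0 := by
    refine h.torsion _ _ _ n hn ?_
    have h1 : u ≫ p ≫ i = 0 := by
      rw [hpi, Preadditive.comp_sub, Preadditive.comp_nsmul, Category.comp_id, ← Category.assoc,
        huv, Preadditive.nsmul_comp, Category.id_comp, sub_self]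
    have h2 : u ≫ p ≫ i ≫ p = 0 := by
      rw [← Category.assoc p i p, ← Category.assoc u, h1, Limits.zero_comp]
    rw [hip, Preadditive.comp_nsmul, Category.comp_id, Preadditive.comp_nsmul] at h2
    exact h2
  have hiv : i ≫ v = 0 := by
    refine h.torsion _ _ _ n hn ?_
    have h1 : (p ≫ i) ≫ v = 0 := by
      rw [hpi, Preadditive.sub_comp, Preadditive.nsmul_comp, Category.id_comp, Category.assoc,
        huv, Preadditive.comp_nsmul, Category.comp_id, sub_self]
    have h2 : (i ≫ p) ≫ i ≫ v = 0 := by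
      rw [Category.assoc, ← Category.assoc p i v, h1, Limits.comp_zero]
    rw [hip, Preadditive.nsmul_comp, Category.id_comp] at h2
    exact h2
  have e1 : ι true ≫ π true = 𝟙 A := hP.one true
  have e2 : ι false ≫ π false = 𝟙 A' := hP.one false
  have e3 : ι true ≫ π false = 0 := hP.zero true false (by simp)
  have e4 : ι false ≫ π true = 0 := hP.zero false true (by simp)
  have e5 : π true ≫ ι true + π false ≫ ι false = 𝟙 P := by
    have := hP.total
    rw [Fintype.sum_bool] at this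
    exact this
  let f : P ⟶ B := π true ≫ (u : cond true A A' ⟶ B) + π false ≫ (i : cond false A A' ⟶ B)
  let g : B ⟶ P := (v : B ⟶ cond true A A') ≫ ι true + (p : B ⟶ cond false A A') ≫ ι false
  have hgf : g ≫ f = n • 𝟙 B := by
    have h1 : g ≫ f = v ≫ u + p ≫ i := by
      simp only [f, g, Preadditive.add_comp, Preadditive.comp_add, Category.assoc]
      rw [← Category.assoc (ι true) (π true), ← Category.assoc (ι true) (π false),
        ← Category.assoc (ι false) (π true), ← Category.assoc (ι false) (π false), e1, e2, e3, e4]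
      simp only [Limits.zero_comp, Limits.comp_zero, add_zero, zero_add]
      congr 1
      · congr 1
        exact Category.id_comp u
      · congr 1
        exact Category.id_comp i
    rw [h1, hpi]
    abel
  have hfg : f ≫ g = n • 𝟙 P := by
    have a1 : (u : cond true A A' ⟶ B) ≫ (v : B ⟶ cond true A A') = n • 𝟙 A := huv
    have a2 : (i : cond false A A' ⟶ B) ≫ (p : B ⟶ cond false A A') = n • 𝟙 A' := hip
    have a3 : (u : cond true A A' ⟶ B) ≫ (p : B ⟶ cond false A A') = 0 := hup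
    have a4 : (i : cond false A A' ⟶ B) ≫ (v : B ⟶ cond true A A') = 0 := hiv
    simp only [f, g, Preadditive.add_comp, Preadditive.comp_add, Category.assoc]
    rw [← Category.assoc u v, ← Category.assoc u p, ← Category.assoc i v, ← Category.assoc i p]
    rw [a1, a2, a3, a4]
    simp only [Limits.zero_comp, Limits.comp_zero, add_zero, zero_add]
    rw [← e5, smul_add]
    congr 1
    · rw [← Preadditive.comp_nsmul]
      congr 1
      rw [Preadditive.nsmul_comp]
      congr 1
      exact Category.id_comp _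
    · rw [← Preadditive.comp_nsmul]
      congr 1
      rw [Preadditive.nsmul_comp]
      congr 1
      exact Category.id_comp _
  exact ⟨f, g, hn, hfg, hgf⟩

/-- The degree bound which is used in the isogeny theorem. -/
def degB (δ : ℕ → ℕ) (m : ℕ) : ℕ := (m ^ m + m * m + 1) + (δ (m ^ m + m * m + 1) + 1) ^ 2

/-- The bound for the degree of the isogeny. -/
def isoB (B : ℕ × ℕ → ℕ) (δ : ℕ → ℕ) (κ : ℕ × ℕ × ℕ → ℕ) (x : ℕ × ℕ) : ℕ :=
  κ (x.1, degB δ x.2, x.2 * B x)

/-- The constant. -/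
def const' (B : ℕ × ℕ → ℕ) (δ : ℕ → ℕ) (κ : ℕ × ℕ × ℕ → ℕ) (x : ℕ × ℕ) : ℕ :=
  6 * (x.2 * B x + x.2 * x.2 * isoB B δ κ x + 3 * (x.2 * x.2)) + 19

theorem computable_const' {B : ℕ × ℕ → ℕ} (hB : Computable B) {δ : ℕ → ℕ} (hδ : Computable δ)
    {κ : ℕ × ℕ × ℕ → ℕ} (hκ : Computable κ) : Computable (const' B δ κ) := by
  have hmul : Computable₂ fun a b : ℕ => a * b := (Primrec.nat_mul).to_comp
  have hadd : Computable₂ fun a b : ℕ => a + b := (Primrec.nat_add).to_comp
  have h1 : Computable fun m : ℕ => m ^ m + m * m + 1 :=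
    hadd.comp (hadd.comp (Curves.computable_pow.comp Computable.id Computable.id)
      (hmul.comp Computable.id Computable.id)) (Computable.const 1)
  have h2 : Computable fun m : ℕ => (δ (m ^ m + m * m + 1) + 1) ^ 2 :=
    Curves.computable_pow.comp (hadd.comp (hδ.comp h1) (Computable.const 1)) (Computable.const 2)
  have h3 : Computable (degB δ) := hadd.comp h1 h2
  have hm : Computable fun x : ℕ × ℕ => x.2 := Computable.snd
  have hmm : Computable fun x : ℕ × ℕ => x.2 * x.2 := hmul.comp hm hm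
  have hmB : Computable fun x : ℕ × ℕ => x.2 * B x := hmul.comp hm hB
  have h4 : Computable (isoB B δ κ) :=
    hκ.comp (Computable.fst.pair ((h3.comp hm).pair hmB))
  unfold const'
  exact hadd.comp (hmul.comp (Computable.const 6) (hadd.comp (hadd.comp hmB (hmul.comp hmm h4))
    (hmul.comp (Computable.const 3) hmm))) (Computable.const 19)

variable {Def : ℕ → ℕ → 𝒜 → Prop}

/-- The bound for the Faltings height of an isogeny factor. -/
theorem factor_height (h : IsEffective D Def) {B : ℕ × ℕ → ℕ}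
    (hB : ∀ (b m : ℕ) (A : 𝒜), D.Basic b m A → D.hF A ≤ B (b, m)) {δ : ℕ → ℕ}
    (hδ : ∀ (b m : ℕ) (B : 𝒜) (w : B ⟶ B) (n : ℕ), Def b m B → D.dim B ≤ m → 1 ≤ n →
      w ≫ w = n • w →
        ∃ (A : 𝒜) (p : B ⟶ A) (i : A ⟶ B), p ≫ i = w ∧ i ≫ p = n • 𝟙 A ∧ Def b (δ m) A)
    {κ : ℕ × ℕ × ℕ → ℕ}
    (hκ : ∀ (b m H : ℕ) (P Q : 𝒜), Def b m P → Def b m Q → D.dim P ≤ m → D.hF P ≤ H →
      (∃ n, IsogenousBy Q P n) → ∃ n, n ≤ κ (b, m, H) ∧ IsogenousBy Q P n)
    {b m : ℕ} {A : 𝒜} (hA1 : Def b 1 A) (hA : IsFactor D b m A) :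
    D.hF A ≤ ((m * B (b, m) + m * m * isoB B δ κ (b, m) + 3 * (m * m) : ℕ) : ℝ) := by
  obtain ⟨s, n, Bj, u, v, hs, hn, hb, huv⟩ := hA
  have hH := h.arakelov.height
  obtain ⟨P, ι, π, hP, hF, hd⟩ := hH.product (Fin s) Bj
  have h1 : (∑ j, u j ≫ ι j) ≫ (∑ k, π k ≫ v k) = n • 𝟙 A := by
    rw [← huv, Preadditive.sum_comp]
    refine Finset.sum_congr rfl fun j _ => ?_
    rw [Preadditive.comp_sum, Finset.sum_eq_single j]
    · rw [Category.assoc, ← Category.assoc (ι j), hP.one, Category.id_comp]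
    · intro k _ hk
      rw [Category.assoc, ← Category.assoc (ι j), hP.zero j k (Ne.symm hk), Limits.zero_comp,
        Limits.comp_zero]
    · intro hj
      exact absurd (Finset.mem_univ j) hj
  set U : A ⟶ P := ∑ j, u j ≫ ι j with hU
  set W : P ⟶ A := ∑ k, π k ≫ v k with hW
  have h3 : D.hF P ≤ (m * B (b, m) : ℕ) := by
    rw [hF]
    calc ∑ j, D.hF (Bj j) ≤ ∑ _j : Fin s, (B (b, m) : ℝ) :=
          Finset.sum_le_sum fun j _ => hB _ _ _ (hb j)
      _ = (s * B (b, m) : ℕ) := by simp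
      _ ≤ (m * B (b, m) : ℕ) := by exact_mod_cast Nat.mul_le_mul_right _ hs
  have h4 : D.dim P ≤ m * m := by
    rw [hd]
    calc ∑ j, D.dim (Bj j) ≤ ∑ _j : Fin s, m :=
          Finset.sum_le_sum fun j _ => h.arakelov.shafarevich.dim_le _ _ _ (hb j)
      _ = s * m := by simp
      _ ≤ m * m := Nat.mul_le_mul_right m hs
  -- fields of definition
  set M₁ := m ^ m + m * m + 1 with hM₁
  have hPdef : Def b M₁ P := by
    have h5 : Def b (m ^ Fintype.card (Fin s)) P :=
      h.defn.product b m (Fin s) Bj P ι π hP fun j => h.defn.basic _ _ _ (hb j)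
    rw [Fintype.card_fin] at h5
    refine h.defn.mono _ _ _ _ ?_ h5
    rcases Nat.eq_zero_or_pos m with h0 | h0
    · subst h0
      have : s = 0 := by omega
      subst this
      omega
    · have : m ^ s ≤ m ^ m := Nat.pow_le_pow_right h0 hs
      omega
  have hw : (n • 𝟙 P - W ≫ U) ≫ (n • 𝟙 P - W ≫ U) = n • (n • 𝟙 P - W ≫ U) := by
    have h1' : (W ≫ U) ≫ W ≫ U = n • (W ≫ U) := by
      rw [Category.assoc, ← Category.assoc U W U, h1, Preadditive.nsmul_comp, Category.id_comp,
        Preadditive.comp_nsmul]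
    rw [Preadditive.sub_comp, Preadditive.comp_sub, Preadditive.comp_sub, h1']
    simp only [Preadditive.nsmul_comp, Preadditive.comp_nsmul, Category.id_comp, Category.comp_id]
    rw [sub_self, sub_zero, smul_sub]
  obtain ⟨A', p, i, hpi, hip, hA'⟩ := hδ b M₁ P _ n hPdef (by omega) hn hw
  obtain ⟨Q, ι', π', hQ, hF', hd'⟩ := hH.product Bool (fun c => cond c A A')
  have hiso : IsogenousBy Q P n := isogeny_of_split hH hn h1 hpi hip hQ
  set M₂ := δ M₁ + 1 with hM₂
  have hQdef : Def b (M₂ ^ 2) Q := by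
    have h5 := h.defn.product b M₂ Bool (fun c => cond c A A') Q ι' π' hQ (by
      intro c
      cases c
      · exact h.defn.mono _ _ _ _ (by omega) hA'
      · exact h.defn.mono _ _ _ _ (by omega) hA1)
    rwa [Fintype.card_bool] at h5
  have hM : degB δ m = M₁ + M₂ ^ 2 := rfl
  obtain ⟨N, hN, f, g, hN1, hfg, hgf⟩ := hκ b (degB δ m) (m * B (b, m)) P Q
    (h.defn.mono _ _ _ _ (by omega) hPdef) (h.defn.mono _ _ _ _ (by omega) hQdef)
    (by omega) h3 ⟨n, hiso⟩
  obtain ⟨hdim, hle⟩ := hH.isogeny Q P f g N hN1 hfg hgf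
  rw [Fintype.sum_bool] at hF' hd'
  have hF'' : D.hF Q = D.hF A + D.hF A' := hF'
  have hd'' : D.dim Q = D.dim A + D.dim A' := hd'
  have hbo := hH.bost A'
  have h7 : (D.dim A' : ℝ) ≤ (m * m : ℕ) := by
    have : D.dim A' ≤ m * m := by omega
    exact_mod_cast this
  have h8 : (D.dim Q : ℝ) ≤ (m * m : ℕ) := by
    have : D.dim Q ≤ m * m := by omega
    exact_mod_cast this
  have h9 : Real.log N ≤ (isoB B δ κ (b, m) : ℕ) := by
    have h6 : Real.log N ≤ N := by
      have := Real.log_le_sub_one_of_pos (x := (N : ℝ)) (by exact_mod_cast hN1)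
      linarith
    have h7 : (N : ℝ) ≤ (isoB B δ κ (b, m) : ℕ) := by exact_mod_cast hN
    linarith
  have h10 : (0 : ℝ) ≤ Real.log N := Real.log_natCast_nonneg N
  have h11 : (D.dim Q : ℝ) * Real.log N ≤ (m * m : ℕ) * (isoB B δ κ (b, m) : ℕ) :=
    mul_le_mul h8 h9 h10 (by positivity)
  push_cast at *
  nlinarith

/-- Effective small points on curves whose Jacobian is an isogeny factor of a product of basic
abelian varieties. -/
theorem main (h : IsEffective D Def) :
    ∃ c : ℕ × ℕ → ℕ, Computable c ∧ ∀ (b m : ℕ) (X : D.V), D.Over b X → 2 ≤ D.genus X →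
      IsFactor D b m (D.jac X) → D.HasSmallPoints X (c (b, m)) := by
  obtain ⟨B, hBc, hB⟩ := h.arakelov.shafarevich.bound
  obtain ⟨δ, hδc, hδ⟩ := h.defn.image
  obtain ⟨κ, hκc, hκ⟩ := h.isogeny
  refine ⟨const' B δ κ, computable_const' hBc hδc hκc, fun b m X hO hX hA => ?_⟩
  refine (h.arakelov.zhang X hX).mono fun x hx => ?_
  have h1 := factor_height h hB hδ hκ (h.defn.jac b X hO) hA
  have h2 : max (D.hF (D.jac X)) 0 ≤
      ((m * B (b, m) + m * m * isoB B δ κ (b, m) + 3 * (m * m) : ℕ) : ℝ) :=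
    max_le h1 (Nat.cast_nonneg _)
  have hx' : D.h X x ≤ 6 * max (D.hF (D.jac X)) 0 + 19 := hx
  change D.h X x ≤
    ((6 * (m * B (b, m) + m * m * isoB B δ κ (b, m) + 3 * (m * m)) + 19 : ℕ) : ℝ)
  push_cast at *
  linarith

end Pool.Agent.Zk51.SQ
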